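import Pool.Agent.Helper97.CG.Stmts

/-!
# CG, row GENS: orthogonal isometries are products of reflections
[helper51]
-/

namespace Pool.Agent.Helper51.CG

open Matrix Pool.Agent.Helper97.CG

universe u

section

variable {k : Type u} [Field k] {n : Type} [Fintype n] [DecidableEq n]

theorem iso_iff (J x : Matrix n n k) : xᵀ * J * x = J ↔
    ∀ a b : n → k, (x *ᵥ a) ⬝ᵥ (J *ᵥ (x *ᵥ b)) = a ⬝ᵥ (J *ᵥ b) := by
  have key : ∀ a b : n → k, (x *ᵥ a) ⬝ᵥ (J *ᵥ (x *ᵥ b)) = a ⬝ᵥ ((xᵀ * J * x) *ᵥ b) := by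
    intro a b
    have h1 : (xᵀ * J * x) *ᵥ b = xᵀ *ᵥ (J *ᵥ (x *ᵥ b)) := by
      rw [mulVec_mulVec, mulVec_mulVec, Matrix.mul_assoc]
    rw [h1, dotProduct_mulVec a, vecMul_transpose]
  constructor
  · intro h a b
    rw [key, h]
  · intro h
    ext i j
    have h1 := h (Pi.single i 1) (Pi.single j 1)
    rw [key] at h1
    simpa using h1

/-- the reflection -/
def rfx (J : Matrix n n k) (v : n → k) : Matrix n n k :=
  1 - (2 / (v ⬝ᵥ (J *ᵥ v))) • vecMulVec v (J *ᵥ v)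

theorem rfx_mulVec (J : Matrix n n k) (v w : n → k) :
    rfx J v *ᵥ w = w - ((2 / (v ⬝ᵥ (J *ᵥ v))) * ((J *ᵥ v) ⬝ᵥ w)) • v := by
  unfold rfx
  rw [sub_mulVec, one_mulVec, smul_mulVec, vecMulVec_mulVec]
  congr 1
  rw [mul_smul]
  congr 1
  ext i
  simp [mul_comm]

variable {J : Matrix n n k} (hJ : Jᵀ = J)

include hJ in
theorem bsymm (a b : n → k) : a ⬝ᵥ (J *ᵥ b) = b ⬝ᵥ (J *ᵥ a) := by
  calc a ⬝ᵥ (J *ᵥ b) = (a ᵥ* J) ⬝ᵥ b := by rw [dotProduct_mulVec]
    _ = b ⬝ᵥ (a ᵥ* J) := by rw [dotProduct_comm]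
    _ = b ⬝ᵥ (Jᵀ *ᵥ a) := by rw [mulVec_transpose]
    _ = b ⬝ᵥ (J *ᵥ a) := by rw [hJ]

include hJ in
theorem rfx_apply (v w : n → k) :
    rfx J v *ᵥ w = w - ((2 / (v ⬝ᵥ (J *ᵥ v))) * (v ⬝ᵥ (J *ᵥ w))) • v := by
  rw [rfx_mulVec, dotProduct_comm (J *ᵥ v) w, bsymm hJ w v]

include hJ in
theorem rfx_iso (v : n → k) (hv : v ⬝ᵥ (J *ᵥ v) ≠ 0) : (rfx J v)ᵀ * J * rfx J v = J := by
  rw [iso_iff]
  intro a b
  rw [rfx_apply hJ, rfx_apply hJ]
  simp only [mulVec_sub, mulVec_smul, sub_dotProduct, dotProduct_sub, smul_dotProduct,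
    dotProduct_smul, smul_eq_mul]
  rw [bsymm hJ a v]
  field_simp
  ring

include hJ in
theorem rfx_sq (v : n → k) (hv : v ⬝ᵥ (J *ᵥ v) ≠ 0) : rfx J v * rfx J v = 1 := by
  apply Matrix.ext_of_mulVec_single
  intro i
  rw [← mulVec_mulVec, rfx_apply hJ, rfx_apply hJ]
  simp only [mulVec_sub, mulVec_smul, dotProduct_sub, dotProduct_smul, smul_eq_mul, one_mulVec]
  rw [sub_sub, ← add_smul]
  have : 2 / (v ⬝ᵥ (J *ᵥ v)) * (v ⬝ᵥ (J *ᵥ Pi.single i 1)) + 2 / (v ⬝ᵥ (J *ᵥ v)) *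
      (v ⬝ᵥ (J *ᵥ Pi.single i 1) - 2 / (v ⬝ᵥ (J *ᵥ v)) * (v ⬝ᵥ (J *ᵥ Pi.single i 1)) *
        (v ⬝ᵥ (J *ᵥ v))) = 0 := by
    field_simp
    ring
  rw [this, zero_smul, sub_zero]

include hJ in
theorem rfx_fix (v w : n → k) (h : v ⬝ᵥ (J *ᵥ w) = 0) : rfx J v *ᵥ w = w := by
  rw [rfx_apply hJ, h, mul_zero, zero_smul, sub_zero]

end

variable (k : Type u) [Field k] [IsAlgClosed k] [CharZero k]

theorem st_GENS : ST_GENS k := by
  intro n _ _ J hF x hx
  have hJ : Jᵀ = J := by rw [hF.symm, one_smul]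
  have h2 : (2 : k) ≠ 0 := two_ne_zero
  letI : Invertible (2 : k) := invertibleOfNonzero h2
  set S : Set (Matrix n n k) := {R : Matrix n n k | ∃ v : n → k, v ⬝ᵥ (J *ᵥ v) ≠ 0 ∧
    R = 1 - (2 / (v ⬝ᵥ (J *ᵥ v))) • vecMulVec v (J *ᵥ v)} with hS
  have hSr : ∀ v : n → k, v ⬝ᵥ (J *ᵥ v) ≠ 0 → rfx J v ∈ Submonoid.closure S := fun v hv =>
    Submonoid.subset_closure ⟨v, hv, rfl⟩
  have hsymm : LinearMap.IsSymm (Matrix.toBilin' J) := ⟨fun x y => by
    rw [Matrix.toBilin'_apply', Matrix.toBilin'_apply']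
    exact bsymm hJ x y⟩
  obtain ⟨b, hb⟩ := LinearMap.BilinForm.exists_orthogonal_basis (B := Matrix.toBilin' J) hsymm
  have hnd : (Matrix.toBilin' J).Nondegenerate :=
    LinearMap.BilinForm.nondegenerate_toBilin'_iff_det_ne_zero.2 hF.det_ne
  have hb0 : ∀ i, b i ⬝ᵥ (J *ᵥ b i) ≠ 0 := by
    intro i
    have := LinearMap.BilinForm.iIsOrtho.not_isOrtho_basis_self_of_nondegenerate hb hnd i
    rwa [Matrix.toBilin'_apply'] at this
  have hbo : ∀ i j, i ≠ j → b i ⬝ᵥ (J *ᵥ b j) = 0 := by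
    intro i j hij
    have := (LinearMap.BilinForm.iIsOrtho_def.1 hb) i j hij
    rwa [Matrix.toBilin'_apply'] at this
  -- the downward induction
  have main : ∀ d : ℕ, ∀ j : ℕ, j + d = Module.finrank k (n → k) → ∀ y : Matrix n n k,
      yᵀ * J * y = J → (∀ i : Fin (Module.finrank k (n → k)), (i : ℕ) < j → y *ᵥ b i = b i) →
      y ∈ Submonoid.closure S := by
    intro d
    induction d with
    | zero =>
      intro j hj y _ hfix
      have h1 : y = 1 := by
        apply Matrix.toLin'.injective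
        apply b.ext
        intro i
        rw [Matrix.toLin'_apply, Matrix.toLin'_apply, one_mulVec]
        exact hfix i (by have := i.2; omega)
      rw [h1]
      exact Submonoid.one_mem _
    | succ d ih =>
      intro j hj y hy hfix
      have hjlt : j < Module.finrank k (n → k) := by omega
      let i0 : Fin (Module.finrank k (n → k)) := ⟨j, hjlt⟩
      have hyi := (iso_iff J y).1 hy
      -- the multiplication step
      have step : ∀ v : n → k, v ⬝ᵥ (J *ᵥ v) ≠ 0 → rfx J v * y ∈ Submonoid.closure S →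
          y ∈ Submonoid.closure S := by
        intro v hv hmem
        have : y = rfx J v * (rfx J v * y) := by
          rw [← Matrix.mul_assoc, rfx_sq hJ v hv, Matrix.one_mul]
        rw [this]
        exact Submonoid.mul_mem _ (hSr v hv) hmem
      have isoR : ∀ v : n → k, v ⬝ᵥ (J *ᵥ v) ≠ 0 → ∀ z : Matrix n n k, zᵀ * J * z = J →
          (rfx J v * z)ᵀ * J * (rfx J v * z) = J := by
        intro v hv z hz
        rw [transpose_mul]
        calc zᵀ * (rfx J v)ᵀ * J * (rfx J v * z) = zᵀ * ((rfx J v)ᵀ * J * rfx J v) * z := by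
              simp only [Matrix.mul_assoc]
          _ = J := by rw [rfx_iso hJ v hv, hz]
      set v := b i0 with hv
      set w := y *ᵥ v with hw
      have hv0 : v ⬝ᵥ (J *ᵥ v) ≠ 0 := hb0 i0
      have hww : w ⬝ᵥ (J *ᵥ w) = v ⬝ᵥ (J *ᵥ v) := hyi v v
      have hvw : w ⬝ᵥ (J *ᵥ v) = v ⬝ᵥ (J *ᵥ w) := bsymm hJ w v
      have hvort : ∀ i : Fin (Module.finrank k (n → k)), (i : ℕ) < j →
          v ⬝ᵥ (J *ᵥ b i) = 0 := by
        intro i hi
        exact hbo i0 i (by intro h; rw [← h] at hi; exact absurd hi (lt_irrefl _))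
      have hwort : ∀ i : Fin (Module.finrank k (n → k)), (i : ℕ) < j →
          w ⬝ᵥ (J *ᵥ b i) = 0 := by
        intro i hi
        have h1 := hyi v (b i)
        rw [hfix i hi, hvort i hi] at h1
        exact h1
      by_cases hc : (v - w) ⬝ᵥ (J *ᵥ (v - w)) = 0
      · -- use v + w and then v
        have hc' : v ⬝ᵥ (J *ᵥ w) = v ⬝ᵥ (J *ᵥ v) := by
          have h1 : (v - w) ⬝ᵥ (J *ᵥ (v - w)) = 2 * (v ⬝ᵥ (J *ᵥ v)) - 2 * (v ⬝ᵥ (J *ᵥ w)) := by
            simp only [mulVec_sub, sub_dotProduct, dotProduct_sub]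
            rw [hww, hvw]
            ring
          rw [h1] at hc
          have h3 : (2 : k) * (v ⬝ᵥ (J *ᵥ w)) = 2 * (v ⬝ᵥ (J *ᵥ v)) := (sub_eq_zero.1 hc).symm
          exact mul_left_cancel₀ h2 h3
        have hz : (v + w) ⬝ᵥ (J *ᵥ (v + w)) = 4 * (v ⬝ᵥ (J *ᵥ v)) := by
          simp only [mulVec_add, add_dotProduct, dotProduct_add]
          rw [hww, hvw, hc']
          ring
        have h4 : (4 : k) ≠ 0 := by norm_num
        have hz0 : (v + w) ⬝ᵥ (J *ᵥ (v + w)) ≠ 0 := by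
          rw [hz]
          exact mul_ne_zero h4 hv0
        refine step (v + w) hz0 ?_
        have hiso1 := isoR (v + w) hz0 y hy
        -- second reflection
        have hfin : rfx J v * (rfx J (v + w) * y) ∈ Submonoid.closure S := by
          refine ih (j + 1) (by omega) _ (isoR v hv0 _ hiso1) ?_
          intro i hi
          rw [← mulVec_mulVec, ← mulVec_mulVec]
          rcases Nat.lt_succ_iff_lt_or_eq.1 hi with hlt | heq
          · rw [hfix i hlt, rfx_fix hJ (v + w) (b i), rfx_fix hJ v (b i) (hvort i hlt)]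
            rw [add_dotProduct, hvort i hlt, hwort i hlt, add_zero]
          · have hi0 : i = i0 := Fin.ext heq
            rw [hi0]
            show rfx J v *ᵥ (rfx J (v + w) *ᵥ w) = v
            rw [rfx_apply hJ (v + w) w, hz]
            have h5 : (v + w) ⬝ᵥ (J *ᵥ w) = 2 * (v ⬝ᵥ (J *ᵥ v)) := by
              rw [add_dotProduct, hww, hc']
              ring
            rw [h5]
            have h6 : 2 / (4 * (v ⬝ᵥ (J *ᵥ v))) * (2 * (v ⬝ᵥ (J *ᵥ v))) = 1 := by
              field_simp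
              norm_num
            rw [h6, one_smul, show w - (v + w) = -v by abel, rfx_apply hJ]
            rw [mulVec_neg, dotProduct_neg]
            have h7 : 2 / (v ⬝ᵥ (J *ᵥ v)) * -(v ⬝ᵥ (J *ᵥ v)) = -2 := by
              field_simp
            rw [h7, neg_smul, two_smul]
            abel
        have : rfx J (v + w) * y = rfx J v * (rfx J v * (rfx J (v + w) * y)) := by
          rw [← Matrix.mul_assoc (rfx J v) (rfx J v), rfx_sq hJ v hv0, Matrix.one_mul]
        rw [this]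
        exact Submonoid.mul_mem _ (hSr v hv0) hfin
      · refine step (v - w) hc ?_
        refine ih (j + 1) (by omega) _ (isoR (v - w) hc y hy) ?_
        intro i hi
        rw [← mulVec_mulVec]
        rcases Nat.lt_succ_iff_lt_or_eq.1 hi with hlt | heq
        · rw [hfix i hlt, rfx_fix hJ (v - w) (b i)]
          rw [sub_dotProduct, hvort i hlt, hwort i hlt, sub_zero]
        · have hi0 : i = i0 := Fin.ext heq
          rw [hi0]
          show rfx J (v - w) *ᵥ w = v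
          rw [rfx_apply hJ (v - w) w]
          have h5 : (v - w) ⬝ᵥ (J *ᵥ (v - w)) = -2 * ((v - w) ⬝ᵥ (J *ᵥ w)) := by
            simp only [mulVec_sub, sub_dotProduct, dotProduct_sub]
            rw [hww, hvw]
            ring
          have h6 : 2 / ((v - w) ⬝ᵥ (J *ᵥ (v - w))) * ((v - w) ⬝ᵥ (J *ᵥ w)) = -1 := by
            rw [h5] at hc ⊢
            have h7 : (v - w) ⬝ᵥ (J *ᵥ w) ≠ 0 := fun h => hc (by rw [h, mul_zero])
            field_simp
          rw [h6, neg_smul, one_smul]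
          abel
  exact main (Module.finrank k (n → k)) 0 (by omega) x hx (fun i hi => absurd hi (Nat.not_lt_zero _))

end Pool.Agent.Helper51.CG
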